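import Pool.Agent.W42.RG.Defs2

/-!
Project LY: elliptic part, contracting and unipotent vectors.
-/

set_option autoImplicit false

namespace Pool.Agent.W922.LY

open Finset Filter Topology Pool.Agent.W42.RG

section

variable {V : Type} [AddCommGroup V] [Module ℝ V]

theorem sep (J : Submodule ℝ V) (Y : V) (h : ∀ ℓ : V →ₗ[ℝ] ℝ, (∀ W ∈ J, ℓ W = 0) → ℓ Y = 0) :
    Y ∈ J := by
  by_contra hY
  obtain ⟨ℓ, h1, h2⟩ := Submodule.exists_dual_map_eq_bot_of_notMem hY inferInstance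
  apply h1
  apply h
  intro W hW
  have : ℓ W ∈ J.map ℓ := Submodule.mem_map_of_mem hW
  rw [h2] at this
  simpa using this

theorem zpow_nat (A : V ≃ₗ[ℝ] V) (n : ℕ) (Y : V) : (A ^ (n : ℤ)) Y = A^[n] Y := by
  rw [zpow_natCast]
  induction n with
  | zero => rfl
  | succ n ih => rw [pow_succ', LinearEquiv.mul_apply, Function.iterate_succ_apply', ih]

theorem zpow_neg_nat (A : V ≃ₗ[ℝ] V) (n : ℕ) (Y : V) : (A ^ (-(n : ℤ))) Y = A.symm^[n] Y := by
  have : A ^ (-(n : ℤ)) = A.symm ^ (n : ℤ) := by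
    rw [zpow_neg, ← inv_zpow]; rfl
  rw [this, zpow_nat]

variable [FiniteDimensional ℝ V] [TopologicalSpace V] [IsTopologicalAddGroup V]
  [ContinuousSMul ℝ V] [T2Space V]

theorem bd {A : V ≃ₗ[ℝ] V} {J : Submodule ℝ V} (h : Ell A J) (ℓ : V →ₗ[ℝ] ℝ)
    (hℓ : ∀ W ∈ J, ℓ W = 0) (Y : V) : ∃ K : ℝ, ∀ n : ℤ, |ℓ ((A ^ n) Y)| ≤ K := by
  obtain ⟨C, hC, hn⟩ := h.2 Y
  have hc : Continuous ℓ := LinearMap.continuous_of_finiteDimensional ℓ
  obtain ⟨K, hK⟩ := hC.exists_bound_of_continuousOn hc.continuousOn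
  refine ⟨K, fun n => ?_⟩
  obtain ⟨W, hW, hWC⟩ := hn n
  have := hK _ hWC
  rw [map_sub, hℓ W hW, sub_zero, Real.norm_eq_abs] at this
  exact this

theorem bd2 {A : V ≃ₗ[ℝ] V} {J : Submodule ℝ V} (h : Ell A J) (ℓ : V →ₗ[ℝ] ℝ)
    (hℓ : ∀ W ∈ J, ℓ W = 0) : ∃ G : V → ℝ, Continuous G ∧ G 0 = 0 ∧
      ∀ (n : ℤ) (Y : V), |ℓ ((A ^ n) Y)| ≤ G Y := by
  choose K hK using bd h ℓ hℓ
  let b := Module.finBasis ℝ V
  refine ⟨fun Y => ∑ i, |b.coord i Y| * K (b i), ?_, ?_, ?_⟩
  · apply continuous_finset_sum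
    intro i _
    have : Continuous (b.coord i) := LinearMap.continuous_of_finiteDimensional _
    exact this.abs.mul continuous_const
  · simp
  · intro n Y
    have e : ℓ ((A ^ n) Y) = ∑ i, b.coord i Y * ℓ ((A ^ n) (b i)) := by
      conv_lhs => rw [← b.sum_repr Y]
      rw [map_sum, map_sum]
      refine Finset.sum_congr rfl (fun i _ => ?_)
      rw [map_smul, map_smul, smul_eq_mul]
      rfl
    rw [e]
    refine (Finset.abs_sum_le_sum_abs _ _).trans (Finset.sum_le_sum (fun i _ => ?_))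
    rw [abs_mul]
    exact mul_le_mul_of_nonneg_left (hK _ _) (abs_nonneg _)

theorem tend {f : V → V} {Y : V} (h : Y ∈ ctr f) : Tendsto (fun n : ℕ => f^[n] Y) atTop (𝓝 0) := by
  obtain ⟨r, hr, ht⟩ := h
  have h1 : Tendsto (fun n : ℕ => (r⁻¹) ^ n) atTop (𝓝 0) :=
    tendsto_pow_atTop_nhds_zero_of_lt_one (by positivity) (inv_lt_one_of_one_lt₀ hr)
  have h2 := h1.smul ht
  rw [smul_zero] at h2
  refine h2.congr (fun n => ?_)
  rw [smul_smul, ← mul_pow, inv_mul_cancel₀ (by positivity), one_pow, one_smul]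

end

theorem t_ELL1 : S_ELL1 := by
  intro V _ _ _ _ _ _ _ A J hE
  refine ⟨?_, ?_, ?_⟩
  · intro Y hY
    apply sep
    intro ℓ hℓ
    obtain ⟨G, hG, hG0, hGb⟩ := bd2 hE ℓ hℓ
    have h1 : Tendsto (fun n : ℕ => G (A^[n] Y)) atTop (𝓝 0) := by
      have := (hG.tendsto 0).comp (tend hY)
      rw [hG0] at this
      exact this
    have h2 : |ℓ Y| ≤ 0 := by
      apply ge_of_tendsto h1
      filter_upwards with n
      have := hGb (-(n : ℤ)) (A^[n] Y)
      rw [← zpow_nat, ← LinearEquiv.mul_apply, ← zpow_add, neg_add_cancel, zpow_zero] at this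
      rw [← zpow_nat]
      exact this
    exact abs_eq_zero.1 (le_antisymm h2 (abs_nonneg _))
  · intro Y hY
    apply sep
    intro ℓ hℓ
    obtain ⟨G, hG, hG0, hGb⟩ := bd2 hE ℓ hℓ
    have h1 : Tendsto (fun n : ℕ => G (A.symm^[n] Y)) atTop (𝓝 0) := by
      have := (hG.tendsto 0).comp (tend hY)
      rw [hG0] at this
      exact this
    have h2 : |ℓ Y| ≤ 0 := by
      apply ge_of_tendsto h1
      filter_upwards with n
      have := hGb (n : ℤ) (A.symm^[n] Y)
      rw [← zpow_neg_nat, ← LinearEquiv.mul_apply, ← zpow_add, add_neg_cancel, zpow_zero] at this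
      rw [← zpow_neg_nat]
      exact this
    exact abs_eq_zero.1 (le_antisymm h2 (abs_nonneg _))
  · intro q hq Y hY
    obtain ⟨Z, m, hm, rfl⟩ := hY
    have hJB : ∀ W ∈ J, (A ^ q) W ∈ J := by
      clear hm hq
      induction q with
      | zero => intro W hW; exact hW
      | succ q ih =>
        intro W hW
        rw [pow_succ', LinearEquiv.mul_apply]
        exact hE.1 _ (ih W hW)
    have hn : ∀ X, nA (A ^ q) X = (A ^ q) X - X := fun X => rfl
    -- one step
    have hstep : ∀ X, nA (A ^ q) (nA (A ^ q) X) ∈ J → nA (A ^ q) X ∈ J := by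
      intro X hX
      apply sep
      intro ℓ hℓ
      obtain ⟨K, hK⟩ := bd hE ℓ hℓ X
      have h1 : ∀ n : ℕ, ∃ W ∈ J, ((A ^ q) ^ n) X = X + (n : ℝ) • nA (A ^ q) X + W := by
        intro n
        induction n with
        | zero => exact ⟨0, J.zero_mem, by simp⟩
        | succ n ih =>
          obtain ⟨W, hW, e⟩ := ih
          refine ⟨(n : ℝ) • nA (A ^ q) (nA (A ^ q) X) + (A ^ q) W,
            J.add_mem (J.smul_mem _ hX) (hJB W hW), ?_⟩
          rw [pow_succ' (A ^ q), LinearEquiv.mul_apply, e, map_add, map_add, map_smul]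
          have e1 : (A ^ q) X = X + nA (A ^ q) X := by rw [hn]; abel
          have e2 : (A ^ q) (nA (A ^ q) X) = nA (A ^ q) X + nA (A ^ q) (nA (A ^ q) X) := by
            rw [hn (nA (A ^ q) X)]; abel
          rw [e2, e1]
          push_cast
          rw [smul_add, add_smul, one_smul]
          abel
      have h2 : ∀ n : ℕ, (n : ℝ) * |ℓ (nA (A ^ q) X)| ≤ K + |ℓ X| := by
        intro n
        obtain ⟨W, hW, e⟩ := h1 n
        have h3 := hK ((q * n : ℕ) : ℤ)
        rw [zpow_natCast, pow_mul, e, map_add, map_add, hℓ W hW, add_zero, map_smul,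
          smul_eq_mul] at h3
        have h4 : |(n : ℝ) * ℓ (nA (A ^ q) X)| = |(ℓ X + (n : ℝ) * ℓ (nA (A ^ q) X)) - ℓ X| := by
          congr 1; ring
        rw [← Nat.abs_cast n, ← abs_mul, h4]
        exact (abs_sub _ _).trans (by linarith)
      by_contra hne
      have hpos : 0 < |ℓ (nA (A ^ q) X)| := abs_pos.2 hne
      obtain ⟨n, hn'⟩ := exists_nat_gt ((K + |ℓ X|) / |ℓ (nA (A ^ q) X)|)
      rw [div_lt_iff₀ hpos] at hn'
      exact absurd (h2 n) (not_le.2 hn')
    have hdesc : ∀ j : ℕ, ((nA (A ^ q)) ^ (j + 1)) Z ∈ J → nA (A ^ q) Z ∈ J := by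
      intro j
      induction j with
      | zero => intro h; simpa using h
      | succ j ih =>
        intro h
        apply ih
        rw [pow_succ', Module.End.mul_apply]
        apply hstep
        rw [pow_succ', pow_succ', Module.End.mul_apply, Module.End.mul_apply] at h
        exact h
    rw [← hn]
    apply hdesc m
    rw [pow_succ', Module.End.mul_apply, hm, map_zero]
    exact J.zero_mem

end Pool.Agent.W922.LY
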